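import Pool.Agent.Q283.LP.Stm
import Pool.Agent.Y697.CJ.LAJ2

/-! # Project LP (helper283), job LAW (helper150) -/

set_option autoImplicit false

open scoped Classical

namespace Pool.Agent.Q150.LP

open Finset Filter Topology
open Pool.Agent.Y697.PQ (ij cf cf_pos ff gi gi_tendsto gi_ge gi_le pm1 tri ff_le_one)
open Pool.Agent.Y703.CQ (c2)
open Q283.GS (al hasSum_al cf_le)
open Q283.GM (qq qq_even ij_self ij_self_pos cf_le_one tri_sum)

/-- the coefficients of the polynomials -/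
noncomputable def wt (r i : ℕ) : ℝ := (-1) ^ i * cf i * (2 ^ (r * i))⁻¹ / ij r (2 ^ r)

theorem qq_eq (r I : ℕ) (x : ℝ) : qq r I x = ∑ i ∈ range (I + 1), wt r i * ij (r + i) x := by
  unfold qq wt
  rw [sum_div]
  refine sum_congr rfl fun i _ => ?_
  ring

theorem ij_one_le (r : ℕ) : 1 ≤ ij r (2 ^ r) := by
  rw [ij_self, le_div_iff₀ (cf_pos r), one_mul]
  exact (cf_le_one r).trans (one_le_pow₀ (by norm_num))

theorem wt_le (r i : ℕ) : |wt r i| ≤ 1 := by
  unfold wt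
  have h1 := ij_one_le r
  have h2 := cf_pos i
  have h3 := cf_le_one i
  have h4 : (2 : ℝ) ^ (r * i) ≥ 1 := one_le_pow₀ (by norm_num)
  rw [abs_div, abs_mul, abs_mul, abs_pow, abs_neg, abs_one, one_pow, one_mul, abs_of_pos h2,
    abs_of_pos (by positivity : (0 : ℝ) < (2 ^ (r * i))⁻¹), abs_of_pos (by linarith), div_le_one (by linarith)]
  have h5 : ((2 : ℝ) ^ (r * i))⁻¹ ≤ 1 := inv_le_one_of_one_le₀ h4
  have h6 : cf i * ((2 : ℝ) ^ (r * i))⁻¹ ≤ 1 := mul_le_one₀ h3 (by positivity) h5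
  linarith

theorem wt_mul (r i : ℕ) : wt r i * 2 ^ ((r + i) * (r + i - 1) / 2) = cf r * ((-1) ^ i * ff i) := by
  unfold wt ff
  rw [ij_self, tri_sum, pow_add, pow_add]
  have h1 := cf_pos r
  have : (2 : ℝ) ^ (r * i) ≠ 0 := by positivity
  field_simp

variable {M : Type} [Fintype M]

theorem prod_qq (r : M → ℕ) (I : ℕ) (x : M → ℝ) :
    ∏ j, qq (r j) I (x j) = ∑ f ∈ Fintype.piFinset (fun _ : M => range (I + 1)),
      (∏ j, wt (r j) (f j)) * ∏ j, ij (r j + f j) (x j) := by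
  simp only [qq_eq]
  rw [Finset.prod_univ_sum]
  refine sum_congr rfl fun f _ => ?_
  rw [prod_mul_distrib]

theorem upper {Ω : Type} [Fintype Ω] [Nonempty Ω] (rk : Ω → M → ℕ) (A : ℕ) (δ : ℝ)
    (h : ∀ a : M → ℕ, (∀ j, a j ≤ A) → |(∑ ω, ∏ j, ij (a j) (2 ^ rk ω j)) / (Fintype.card Ω : ℝ) -
      ∏ j, (2 : ℝ) ^ (a j * (a j - 1) / 2)| ≤ δ) (I : ℕ) (r : M → ℕ) (hr : ∀ j, r j + I ≤ A) :
    |(∑ ω, ∏ j, qq (r j) I (2 ^ rk ω j)) / (Fintype.card Ω : ℝ) -
      ∏ j, (cf (r j) * ∑ i ∈ range (I + 1), (-1) ^ i * ff i)| ≤ (I + 1) ^ Fintype.card M * δ := by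
  have h1 : (∑ ω, ∏ j, qq (r j) I (2 ^ rk ω j)) / (Fintype.card Ω : ℝ) =
      ∑ f ∈ Fintype.piFinset (fun _ : M => range (I + 1)), (∏ j, wt (r j) (f j)) *
        ((∑ ω, ∏ j, ij (r j + f j) (2 ^ rk ω j)) / (Fintype.card Ω : ℝ)) := by
    simp only [prod_qq]
    rw [sum_comm, sum_div]
    refine sum_congr rfl fun f _ => ?_
    rw [← mul_sum, mul_div_assoc]
  have h2 : ∏ j, (cf (r j) * ∑ i ∈ range (I + 1), (-1) ^ i * ff i) =
      ∑ f ∈ Fintype.piFinset (fun _ : M => range (I + 1)), (∏ j, wt (r j) (f j)) *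
        ∏ j, (2 : ℝ) ^ ((r j + f j) * (r j + f j - 1) / 2) := by
    have h3 : ∀ j, cf (r j) * ∑ i ∈ range (I + 1), (-1) ^ i * ff i =
        ∑ i ∈ range (I + 1), wt (r j) i * 2 ^ ((r j + i) * (r j + i - 1) / 2) := by
      intro j
      rw [mul_sum]
      exact sum_congr rfl fun i _ => (wt_mul (r j) i).symm
    simp only [h3]
    rw [Finset.prod_univ_sum]
    refine sum_congr rfl fun f _ => ?_
    rw [prod_mul_distrib]
  rw [h1, h2, ← sum_sub_distrib]
  refine (abs_sum_le_sum_abs _ _).trans ?_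
  have h3 : ∀ f ∈ Fintype.piFinset (fun _ : M => range (I + 1)),
      |(∏ j, wt (r j) (f j)) * ((∑ ω, ∏ j, ij (r j + f j) (2 ^ rk ω j)) / (Fintype.card Ω : ℝ)) -
        (∏ j, wt (r j) (f j)) * ∏ j, (2 : ℝ) ^ ((r j + f j) * (r j + f j - 1) / 2)| ≤ δ := by
    intro f hf
    rw [Fintype.mem_piFinset] at hf
    rw [← mul_sub, abs_mul, abs_prod]
    have h4 := h (fun j => r j + f j) (fun j => by
      have := mem_range.1 (hf j)
      have := hr j
      omega)
    have h5 : ∏ j, |wt (r j) (f j)| ≤ 1 := prod_le_one (fun _ _ => abs_nonneg _) fun j _ => wt_le _ _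
    have h6 : 0 ≤ δ := (abs_nonneg _).trans h4
    calc (∏ j, |wt (r j) (f j)|) * _ ≤ 1 * δ := mul_le_mul h5 h4 (abs_nonneg _) zero_le_one
      _ = δ := one_mul _
  refine (sum_le_sum h3).trans (le_of_eq ?_)
  rw [sum_const, Fintype.card_piFinset, nsmul_eq_mul]
  simp

theorem markov {Ω : Type} [Fintype Ω] [Nonempty Ω] (rk : Ω → M → ℕ) (A : ℕ) (δ : ℝ) (hδ : δ ≤ 1)
    (hA : 1 ≤ A)
    (h : ∀ a : M → ℕ, (∀ j, a j ≤ A) → |(∑ ω, ∏ j, ij (a j) (2 ^ rk ω j)) / (Fintype.card Ω : ℝ) -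
      ∏ j, (2 : ℝ) ^ (a j * (a j - 1) / 2)| ≤ δ) (B : ℕ) (j : M) :
    (∑ ω, if B ≤ rk ω j then (1 : ℝ) else 0) / (Fintype.card Ω : ℝ) ≤ 3 / 2 ^ B := by
  have hn : (0 : ℝ) < Fintype.card Ω := by exact_mod_cast Fintype.card_pos
  have h1 := h (fun i => if i = j then 1 else 0) (fun i => by split_ifs <;> omega)
  have h2 : ∀ ω, ∏ i, ij (if i = j then 1 else 0) (2 ^ rk ω i) = 2 ^ rk ω j - 1 := by
    intro ω
    rw [prod_eq_single j]
    · rw [if_pos rfl]
      simp [ij]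
    · intro i _ hi
      rw [if_neg hi]
      simp [ij]
    · simp
  have h3 : ∏ i, (2 : ℝ) ^ ((if i = j then 1 else 0) * ((if i = j then 1 else 0) - 1) / 2) = 1 := by
    refine prod_eq_one fun i _ => ?_
    split_ifs <;> simp
  simp only [h2] at h1
  rw [h3, sum_sub_distrib, sum_const, card_univ, nsmul_eq_mul, mul_one, sub_div, div_self hn.ne'] at h1
  have h4 : (∑ ω, (2 : ℝ) ^ rk ω j) / Fintype.card Ω ≤ 3 := by
    have := (abs_le.1 h1).2
    linarith
  rw [div_le_iff₀ hn] at h4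
  rw [div_le_div_iff₀ hn (by positivity)]
  have h5 : (∑ ω, if B ≤ rk ω j then (1 : ℝ) else 0) * 2 ^ B ≤ ∑ ω, (2 : ℝ) ^ rk ω j := by
    rw [sum_mul]
    refine sum_le_sum fun ω _ => ?_
    split_ifs with hB
    · rw [one_mul]
      exact pow_le_pow_right₀ (by norm_num) hB
    · rw [zero_mul]; positivity
  linarith

theorem c2_nn : 0 ≤ c2 := by
  rw [← Pool.Agent.Y697.CJ.gi_eq]
  exact le_trans (by norm_num) gi_ge

theorem al_nn (r : ℕ) : 0 ≤ al r := mul_nonneg c2_nn (cf_pos r).le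

theorem c2_le : c2 ≤ 1 := by
  rw [← Pool.Agent.Y697.CJ.gi_eq]
  exact gi_le

theorem al_le_one (r : ℕ) : al r ≤ 1 := mul_le_one₀ c2_le (cf_pos r).le (cf_le_one r)

theorem al_small {B r : ℕ} (hr : B ≤ r) (hB : 1 ≤ B) : al r ≤ 2 / 2 ^ B := by
  obtain ⟨s, rfl⟩ : ∃ s, r = s + 1 := ⟨r - 1, by omega⟩
  have h1 : al (s + 1) ≤ cf (s + 1) := mul_le_of_le_one_left (cf_pos _).le c2_le
  refine h1.trans ((cf_le s).trans ?_)
  rw [one_div, inv_pow, le_div_iff₀ (by positivity), inv_mul_le_iff₀ (by positivity)]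
  calc (2 : ℝ) ^ B ≤ 2 ^ (s + 1) := pow_le_pow_right₀ (by norm_num) hr
    _ = 2 ^ s * 2 := pow_succ _ _

theorem sum_al_le (B : ℕ) : ∑ r ∈ range B, al r ≤ 1 := by
  have h1 := sum_le_hasSum (range B) (fun r _ => al_nn r) hasSum_al
  exact h1

theorem t_LAW : Q283.LP.S_LAW := by
  intro M _ ε hε
  obtain ⟨m, hm⟩ : ∃ m, m = Fintype.card M := ⟨_, rfl⟩
  -- the level
  obtain ⟨B, hB1, hB⟩ : ∃ B : ℕ, 1 ≤ B ∧ (3 * m + 5 : ℝ) / 2 ^ B ≤ ε / 2 := by
    obtain ⟨B, hB⟩ := pow_unbounded_of_one_lt ((3 * m + 5 : ℝ) / (ε / 2)) (show (1 : ℝ) < 2 by norm_num)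
    refine ⟨B + 1, by omega, ?_⟩
    rw [div_lt_iff₀ (by positivity)] at hB
    rw [div_le_iff₀ (by positivity)]
    have : (2 : ℝ) ^ B ≤ 2 ^ (B + 1) := pow_le_pow_right₀ (by norm_num) (by omega)
    nlinarith
  obtain ⟨η, hη⟩ : ∃ η : ℝ, η = ε / (2 * ((B : ℝ) ^ m + 1)) := ⟨_, rfl⟩
  have hη0 : 0 < η := by rw [hη]; positivity
  -- the order
  have hs : Tendsto (fun n => (∑ i ∈ range n, (-1) ^ i * ff i) ^ m) atTop (𝓝 (c2 ^ m)) := by
    rw [← Pool.Agent.Y697.CJ.gi_eq]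
    exact gi_tendsto.pow m
  obtain ⟨n₀, hn₀⟩ := (Metric.tendsto_atTop.1 hs) (η / 2) (by positivity)
  obtain ⟨I, hI⟩ : ∃ I, I = 2 * n₀ := ⟨_, rfl⟩
  have hIe : Even I := ⟨n₀, by omega⟩
  have hsI := hn₀ (I + 1) (by omega)
  rw [Real.dist_eq] at hsI
  obtain ⟨δ, hδ⟩ : ∃ δ : ℝ, δ = min 1 (η / (2 * ((I : ℝ) + 1) ^ m)) := ⟨_, rfl⟩
  have hδ0 : 0 < δ := by rw [hδ]; exact lt_min one_pos (by positivity)
  have hδ1 : δ ≤ 1 := by rw [hδ]; exact min_le_left _ _
  have hδ2 : ((I : ℝ) + 1) ^ m * δ ≤ η / 2 := by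
    have h1 : δ ≤ η / (2 * ((I : ℝ) + 1) ^ m) := by rw [hδ]; exact min_le_right _ _
    have h2 : (0 : ℝ) < ((I : ℝ) + 1) ^ m := by positivity
    rw [le_div_iff₀ (by positivity)] at h1
    linarith
  refine ⟨B + I + 1, δ, hδ0, ?_⟩
  intro Ω _ _ rk hmom
  have hn : (0 : ℝ) < Fintype.card Ω := by exact_mod_cast Fintype.card_pos
  obtain ⟨PP, hPP⟩ : ∃ PP : (M → ℕ) → ℝ, PP = fun r =>
    (∑ ω, if ∀ j, rk ω j = r j then (1 : ℝ) else 0) / (Fintype.card Ω : ℝ) := ⟨_, rfl⟩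
  obtain ⟨TT, hTT⟩ : ∃ TT : M → ℝ, TT = fun j =>
    (∑ ω, if B ≤ rk ω j then (1 : ℝ) else 0) / (Fintype.card Ω : ℝ) := ⟨_, rfl⟩
  have hTle : ∀ j, TT j ≤ 3 / 2 ^ B := by
    intro j
    rw [hTT]
    exact markov rk _ δ hδ1 (by omega) hmom B j
  have hT0 : ∀ j, 0 ≤ TT j := by
    intro j
    rw [hTT]
    exact div_nonneg (sum_nonneg fun ω _ => by split_ifs <;> norm_num) hn.le
  have hPcard : ∀ r : M → ℕ, ((univ.filter fun ω => ∀ j, rk ω j = r j).card : ℝ) /
      (Fintype.card Ω : ℝ) = PP r := by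
    intro r
    rw [hPP, card_filter]
    push_cast
    rfl
  have hP0 : ∀ r, 0 ≤ PP r := by
    intro r
    rw [hPP]
    exact div_nonneg (sum_nonneg fun ω _ => by split_ifs <;> norm_num) hn.le
  -- the upper bound
  have hup : ∀ r : M → ℕ, (∀ j, r j < B) → PP r ≤ ∏ j, al (r j) + η := by
    intro r hr
    have h1 := upper rk _ δ hmom I r (fun j => by have := hr j; omega)
    have h2 : PP r ≤ (∑ ω, ∏ j, qq (r j) I (2 ^ rk ω j)) / (Fintype.card Ω : ℝ) := by
      rw [hPP]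
      refine div_le_div_of_nonneg_right (sum_le_sum fun ω _ => ?_) hn.le
      have h3 : ∀ j, (if rk ω j = r j then (1 : ℝ) else 0) ≤ qq (r j) I (2 ^ rk ω j) :=
        fun j => qq_even hIe (r j) (rk ω j)
      have h4 : (if ∀ j, rk ω j = r j then (1 : ℝ) else 0) =
          ∏ j, (if rk ω j = r j then (1 : ℝ) else 0) := by
        by_cases h5 : ∀ j, rk ω j = r j
        · rw [if_pos h5]
          exact (prod_eq_one fun j _ => if_pos (h5 j)).symm
        · rw [if_neg h5]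
          push Not at h5
          obtain ⟨j, hj⟩ := h5
          exact (prod_eq_zero (mem_univ j) (if_neg hj)).symm
      rw [h4]
      exact prod_le_prod (fun j _ => by split_ifs <;> norm_num) fun j _ => h3 j
    have h3 : |∏ j, (cf (r j) * ∑ i ∈ range (I + 1), (-1) ^ i * ff i) - ∏ j, al (r j)| ≤ η / 2 := by
      have h4 : ∏ j, (cf (r j) * ∑ i ∈ range (I + 1), (-1) ^ i * ff i) - ∏ j, al (r j) =
          (∏ j, cf (r j)) * ((∑ i ∈ range (I + 1), (-1) ^ i * ff i) ^ m - c2 ^ m) := by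
        unfold al
        rw [prod_mul_distrib, prod_mul_distrib, prod_const, prod_const, card_univ, ← hm]
        ring
      rw [h4, abs_mul, abs_of_nonneg (prod_nonneg fun j _ => (cf_pos _).le)]
      calc (∏ j, cf (r j)) * |(∑ i ∈ range (I + 1), (-1) ^ i * ff i) ^ m - c2 ^ m| ≤ 1 * (η / 2) :=
            mul_le_mul (prod_le_one (fun j _ => (cf_pos _).le) fun j _ => cf_le_one _) hsI.le
              (abs_nonneg _) zero_le_one
        _ = η / 2 := one_mul _
    rw [← hm] at h1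
    have h5 := (abs_le.1 h1).2
    have h6 := (abs_le.1 h3).2
    linarith
  -- the total mass
  have htot : 1 ≤ ∑ r ∈ Fintype.piFinset (fun _ : M => range B), PP r + ∑ j, TT j := by
    rw [hPP, hTT]
    simp only
    rw [← sum_div, ← sum_div, ← add_div, le_div_iff₀ hn, one_mul, sum_comm, sum_comm (s := univ (α := M)),
      ← sum_add_distrib]
    have h1 : (Fintype.card Ω : ℝ) = ∑ ω : Ω, (1 : ℝ) := by simp
    rw [h1]
    refine sum_le_sum fun ω _ => ?_
    by_cases h2 : ∀ j, rk ω j < B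
    · have h3 : (1 : ℝ) ≤ ∑ r ∈ Fintype.piFinset (fun _ : M => range B),
          (if ∀ j, rk ω j = r j then (1 : ℝ) else 0) := by
        have h4 := single_le_sum (f := fun r : M → ℕ => if ∀ j, rk ω j = r j then (1 : ℝ) else 0)
          (fun r _ => by split_ifs <;> norm_num)
          (Fintype.mem_piFinset.2 fun j => mem_range.2 (h2 j))
        simpa using h4
      have h4 : (0 : ℝ) ≤ ∑ j, (if B ≤ rk ω j then (1 : ℝ) else 0) :=
        sum_nonneg fun j _ => by split_ifs <;> norm_num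
      linarith
    · push Not at h2
      obtain ⟨j, hj⟩ := h2
      have h3 : (1 : ℝ) ≤ ∑ j, (if B ≤ rk ω j then (1 : ℝ) else 0) := by
        have h4 := single_le_sum (f := fun j : M => if B ≤ rk ω j then (1 : ℝ) else 0)
          (fun r _ => by split_ifs <;> norm_num) (mem_univ j)
        simp only [if_pos hj] at h4
        exact h4
      have h4 : (0 : ℝ) ≤ ∑ r ∈ Fintype.piFinset (fun _ : M => range B),
          (if ∀ j, rk ω j = r j then (1 : ℝ) else 0) :=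
        sum_nonneg fun j _ => by split_ifs <;> norm_num
      linarith
  have hT : ∑ j, TT j ≤ m * (3 / 2 ^ B) := by
    refine (sum_le_sum fun j _ => hTle j).trans (le_of_eq ?_)
    rw [sum_const, card_univ, ← hm, nsmul_eq_mul]
  intro r
  rw [hPcard]
  have hal0 : 0 ≤ ∏ j, al (r j) := prod_nonneg fun j _ => al_nn _
  have hpB : (0 : ℝ) < 2 ^ B := by positivity
  by_cases hr : ∀ j, r j < B
  · have h1 := hup r hr
    have hmem : r ∈ Fintype.piFinset (fun _ : M => range B) :=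
      Fintype.mem_piFinset.2 fun j => mem_range.2 (hr j)
    have h2 : ∑ r' ∈ (Fintype.piFinset (fun _ : M => range B)).erase r, PP r' ≤
        ∑ r' ∈ (Fintype.piFinset (fun _ : M => range B)).erase r, (∏ j, al (r' j) + η) := by
      refine sum_le_sum fun r' hr' => hup r' fun j => ?_
      exact mem_range.1 (Fintype.mem_piFinset.1 (mem_of_mem_erase hr') j)
    have h3 : ∑ r' ∈ Fintype.piFinset (fun _ : M => range B), ∏ j, al (r' j) ≤ 1 := by
      rw [← Finset.prod_univ_sum (fun _ : M => range B) (fun _ i => al i)]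
      exact prod_le_one (fun j _ => sum_nonneg fun i _ => al_nn i) fun j _ => sum_al_le B
    have h4 := add_sum_erase _ (fun r' : M → ℕ => ∏ j, al (r' j)) hmem
    have h5 := add_sum_erase _ PP hmem
    have h6 : ∑ r' ∈ (Fintype.piFinset (fun _ : M => range B)).erase r, (η : ℝ) ≤ (B : ℝ) ^ m * η := by
      rw [sum_const, nsmul_eq_mul]
      refine mul_le_mul_of_nonneg_right ?_ hη0.le
      have h7 : ((Fintype.piFinset (fun _ : M => range B)).erase r).card ≤ B ^ m := by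
        refine (card_erase_le).trans (le_of_eq ?_)
        rw [Fintype.card_piFinset]
        simp [hm]
      exact_mod_cast h7
    rw [sum_add_distrib] at h2
    have h7 : ((B : ℝ) ^ m + 1) * η = ε / 2 := by
      rw [hη]; field_simp
    have h8 : (m : ℝ) * (3 / 2 ^ B) ≤ ε / 2 := by
      refine le_trans ?_ hB
      rw [← mul_div_assoc]
      exact div_le_div_of_nonneg_right (by linarith) hpB.le
    rw [abs_le]
    constructor
    · linarith
    · have : (0 : ℝ) ≤ (B : ℝ) ^ m := by positivity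
      nlinarith
  · push Not at hr
    obtain ⟨j, hj⟩ := hr
    have h1 : PP r ≤ 3 / 2 ^ B := by
      refine le_trans ?_ (hTle j)
      rw [hPP, hTT]
      refine div_le_div_of_nonneg_right (sum_le_sum fun ω _ => ?_) hn.le
      by_cases h2 : ∀ j, rk ω j = r j
      · rw [if_pos h2, if_pos (by rw [h2 j]; exact hj)]
      · rw [if_neg h2]
        split_ifs <;> norm_num
    have h2 : ∏ j, al (r j) ≤ 2 / 2 ^ B := by
      refine le_trans ?_ (al_small hj hB1)
      rw [← mul_prod_erase univ (fun j => al (r j)) (mem_univ j)]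
      exact mul_le_of_le_one_right (al_nn _) (prod_le_one (fun j _ => al_nn _) fun j _ => al_le_one _)
    have h3 := hP0 r
    have h4 : (3 : ℝ) / 2 ^ B ≤ ε / 2 := by
      refine le_trans (div_le_div_of_nonneg_right ?_ hpB.le) hB
      have : (0 : ℝ) ≤ m := Nat.cast_nonneg m
      linarith
    have h5 : (2 : ℝ) / 2 ^ B ≤ ε / 2 := by
      refine le_trans (div_le_div_of_nonneg_right ?_ hpB.le) hB
      have : (0 : ℝ) ≤ m := Nat.cast_nonneg m
      linarith
    rw [abs_le]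
    constructor <;> linarith

end Pool.Agent.Q150.LP
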